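import Pool.Agent.Y882.GP.Quad

/-! `N - G(p)` is free of prime factors below `N ^ u` for all but few `N`. -/

set_option autoImplicit false

open Finset Polynomial Filter Topology

namespace Pool.Agent.Q251.GQ

open Pool.Agent.Y882 Pool.Agent.Y882.GP
open Pool.Agent.Y882.PX (ro KF)

open Classical in
/-- the primes `p ≤ z` for which `N - G(p) ≥ 2` has no prime factor smaller than `N ^ u` -/
noncomputable def goodu (G : ℤ[X]) (u : ℝ) (N : ℕ) (z : ℝ) : Finset ℕ :=
  (Icc 1 ⌊z⌋₊).filter (fun p : ℕ => p.Prime ∧ 2 ≤ (N : ℤ) - G.eval (p : ℤ) ∧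
    ∀ q : ℕ, q.Prime → (q : ℤ) ∣ (N : ℤ) - G.eval (p : ℤ) → (N : ℝ) ^ u ≤ q)

open Classical in
/-- **`N - G(p)` has no prime factor below `N ^ u` for all but few `N`.** -/
theorem schzu (G : ℤ[X]) (hG : 1 ≤ G.natDegree) (hlc : 0 < G.leadingCoeff) (θ u ε : ℝ)
    (hθ0 : 0 < θ) (hθ1 : θ * G.natDegree ≤ 1) (hu00 : 0 < u) (hu4 : 4 * u < 1 + θ) (hε : 0 < ε) :
    ∃ δ C : ℝ, 0 < δ ∧ 0 < C ∧ ∀ X : ℕ, 1 ≤ X →
      (((Icc 1 X).filter (fun N : ℕ => ((goodu G u N ((N : ℝ) ^ θ)).card : ℝ) <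
        δ * sing G N ((N : ℝ) ^ θ) * ((N : ℝ) ^ θ / Real.log N ^ 2))).card : ℝ) ≤
      C * (X : ℝ) ^ (max (max (2 / 3) (1 - θ)) (4 * u - θ) + ε) := by
  have hGr : (1 : ℝ) ≤ G.natDegree := by exact_mod_cast hG
  have hθle : θ ≤ 1 := by nlinarith
  obtain ⟨s, hs0, hs1, hs2, hs3⟩ : ∃ s : ℝ, 0 < s ∧ s ≤ ε / 32 ∧ s ≤ (1 + θ - 4 * u) / 8 ∧
      s ≤ θ / 2 := by
    refine ⟨min (min (ε / 32) ((1 + θ - 4 * u) / 8)) (θ / 2), lt_min (lt_min (by linarith)
      (by linarith)) (by linarith), (min_le_left _ _).trans (min_le_left _ _),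
      (min_le_left _ _).trans (min_le_right _ _), min_le_right _ _⟩
  set θ' : ℝ := θ - s with hθ'
  obtain ⟨δ', hδ', Y0, H⟩ := main0 G hG θ' u (ε / 4) (by linarith) (by linarith) (by linarith)
    (by linarith) (by linarith)
  obtain ⟨CG, hCG⟩ := eval_le G
  obtain ⟨P0, hP0⟩ := eval_pos G hG hlc
  obtain ⟨c, hc, hML⟩ := mert_low
  set lam : ℝ := 1 / (4 * ((CG : ℝ) + 1)) with hlam
  have hlam0 : 0 < lam := by positivity
  have hlam4 : lam ≤ 1 / 4 := by
    rw [hlam]
    apply one_div_le_one_div_of_le (by norm_num)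
    have : (0 : ℝ) ≤ CG := Nat.cast_nonneg _
    linarith
  have hlamC : (CG : ℝ) * lam ≤ 1 / 4 := by
    rw [hlam, mul_one_div, div_le_iff₀ (by positivity)]
    linarith
  set δ : ℝ := δ' * lam * c / 4 with hδdef
  have hδ : 0 < δ := by positivity
  set E : ℝ := max (max (2 / 3) (1 - θ)) (4 * u - θ) with hE
  have hE0 : 2 / 3 ≤ E := (le_max_left _ _).trans (le_max_left _ _)
  have hE1 : 1 - θ ≤ E := (le_max_right _ _).trans (le_max_left _ _)
  have hE2 : 4 * u - θ ≤ E := le_max_right _ _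
  have hE' : max (max (2 / 3) (1 - θ')) (4 * u - θ') + ε / 4 ≤ E + ε / 2 := by
    have h1 : max (max (2 / 3) (1 - θ')) (4 * u - θ') ≤ E + ε / 4 := by
      apply max_le
      · apply max_le
        · linarith
        · rw [hθ']; linarith
      · rw [hθ']; linarith
    linarith
  have ev1 : ∀ᶠ Y : ℕ in atTop, max (2 * P0 / lam) (1 / lam) ≤ (Y : ℝ) ^ (min s θ) :=
    tendsto_natCast_atTop_atTop.eventually
      ((tendsto_rpow_atTop (lt_min hs0 hθ0)).eventually_ge_atTop _)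
  have ev2 : ∀ᶠ Y : ℕ in atTop, (3 : ℝ) ≤ (Y : ℝ) ^ θ :=
    tendsto_natCast_atTop_atTop.eventually ((tendsto_rpow_atTop hθ0).eventually_ge_atTop _)
  have ev3 : ∀ᶠ Y : ℕ in atTop, (2 : ℝ) ^ (E + ε / 2) ≤ (Y : ℝ) ^ (ε / 2) :=
    tendsto_natCast_atTop_atTop.eventually
      ((tendsto_rpow_atTop (by linarith)).eventually_ge_atTop _)
  obtain ⟨Y1, hY1⟩ := eventually_atTop.1 (ev1.and (ev2.and (ev3.and (eventually_ge_atTop 3))))
  obtain ⟨C, hC, hcum⟩ := cum (fun N : ℕ => ((goodu G u N ((N : ℝ) ^ θ)).card : ℝ) <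
        δ * sing G N ((N : ℝ) ^ θ) * ((N : ℝ) ^ θ / Real.log N ^ 2)) (E + ε) (by linarith)
    (max Y0 Y1) (by
    intro Y hY
    obtain ⟨f1, f2, f3, f4⟩ := hY1 Y ((le_max_right _ _).trans hY)
    have hYr : (3 : ℝ) ≤ Y := by exact_mod_cast f4
    have hY0 : (0 : ℝ) < Y := by linarith
    set Z : ℕ := 2 * Y with hZ
    have hZr : (Z : ℝ) = 2 * Y := by rw [hZ]; push_cast; ring
    have hZ0 : (0 : ℝ) < Z := by linarith
    have hZ1 : (1 : ℝ) ≤ Z := by linarith
    have hYZ : (Y : ℝ) ≤ Z := by linarith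
    set x : ℝ := lam * (Z : ℝ) ^ θ with hx
    have hlZ : 0 < Real.log Z := Real.log_pos (by linarith)
    have hZs : 1 / lam ≤ (Z : ℝ) ^ s := by
      calc 1 / lam ≤ (Y : ℝ) ^ (min s θ) := (le_max_right _ _).trans f1
        _ ≤ (Y : ℝ) ^ s := Real.rpow_le_rpow_of_exponent_le (by linarith) (min_le_left _ _)
        _ ≤ (Z : ℝ) ^ s := Real.rpow_le_rpow hY0.le hYZ hs0.le
    have hxl : (Z : ℝ) ^ θ' ≤ x := by
      rw [hx, hθ', Real.rpow_sub hZ0, div_le_iff₀ (by positivity)]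
      calc (Z : ℝ) ^ θ = lam * (Z : ℝ) ^ θ * (1 / lam) := by field_simp
        _ ≤ lam * (Z : ℝ) ^ θ * (Z : ℝ) ^ s := mul_le_mul_of_nonneg_left hZs (by positivity)
    have hZθZ : (Z : ℝ) ^ θ ≤ Z := by
      calc (Z : ℝ) ^ θ ≤ (Z : ℝ) ^ (1 : ℝ) := Real.rpow_le_rpow_of_exponent_le hZ1 hθle
        _ = Z := Real.rpow_one _
    have hxu : x ≤ Z := by
      calc x ≤ 1 * (Z : ℝ) ^ θ := mul_le_mul_of_nonneg_right (by linarith) (by positivity)
        _ ≤ Z := by rw [one_mul]; exact hZθZ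
    have hH := H Z (by
      have := (le_max_left Y0 Y1).trans hY
      omega) x hxl hxu
    -- pointwise
    have hpt : ∀ N ∈ Ioc Y (2 * Y), ((goodu G u N ((N : ℝ) ^ θ)).card : ℝ) <
        δ * sing G N ((N : ℝ) ^ θ) * ((N : ℝ) ^ θ / Real.log N ^ 2) →
        ((gp G (-(N : ℤ)) x ((Z : ℝ) ^ u)).card : ℝ) <
          δ' * x / Real.log Z * locP G (-(N : ℤ)) x := by
      intro N hN hlt
      rw [mem_Ioc] at hN
      have hNr1 : (Y : ℝ) < N := by exact_mod_cast hN.1
      have hNr2 : (N : ℝ) ≤ Z := by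
        rw [hZr]
        exact_mod_cast hN.2
      have hN0 : (0 : ℝ) < N := by linarith
      have hNZ : (Z : ℝ) < 2 * N := by linarith
      have hxN : x ≤ (N : ℝ) ^ θ := by
        have h1 : (Z : ℝ) ^ θ ≤ 2 * (N : ℝ) ^ θ := by
          calc (Z : ℝ) ^ θ ≤ (2 * (N : ℝ)) ^ θ := Real.rpow_le_rpow hZ0.le hNZ.le hθ0.le
            _ = (2 : ℝ) ^ θ * (N : ℝ) ^ θ := Real.mul_rpow (by norm_num) hN0.le
            _ ≤ 2 * (N : ℝ) ^ θ := by
                apply mul_le_mul_of_nonneg_right _ (by positivity)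
                calc (2 : ℝ) ^ θ ≤ 2 ^ (1 : ℝ) :=
                      Real.rpow_le_rpow_of_exponent_le (by norm_num) hθle
                  _ = 2 := Real.rpow_one _
        have h2 : (0 : ℝ) < (N : ℝ) ^ θ := by positivity
        calc x ≤ 1 / 4 * (Z : ℝ) ^ θ := mul_le_mul_of_nonneg_right hlam4 (by positivity)
          _ ≤ (N : ℝ) ^ θ := by linarith
      -- inclusion
      have hsub : gp G (-(N : ℤ)) x ((Z : ℝ) ^ u) ⊆ goodu G u N ((N : ℝ) ^ θ) := by
        intro p hp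
        unfold gp at hp
        rw [mem_filter, mem_Icc] at hp
        obtain ⟨⟨hp1, hp2⟩, hpp, hpx1, hpx2, hpg, hpq⟩ := hp
        have hp0 : (0 : ℝ) < p := by exact_mod_cast hp1
        have hGp : ((G.eval (p : ℤ) : ℤ) : ℝ) ≤ Z / 4 := by
          have h1 : ((G.eval (p : ℤ) : ℤ) : ℝ) ≤ (CG : ℝ) * (p : ℝ) ^ G.natDegree := by
            exact_mod_cast hCG p hp1
          refine h1.trans ?_
          have h2 : (p : ℝ) ^ G.natDegree ≤ lam * Z := by
            calc (p : ℝ) ^ G.natDegree ≤ x ^ G.natDegree :=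
                  pow_le_pow_left₀ hp0.le hpx2.le _
              _ = lam ^ G.natDegree * ((Z : ℝ) ^ θ) ^ G.natDegree := by rw [hx, mul_pow]
              _ ≤ lam * Z := by
                  apply mul_le_mul _ _ (by positivity) hlam0.le
                  · calc lam ^ G.natDegree ≤ lam ^ 1 :=
                          pow_le_pow_of_le_one hlam0.le (by linarith) hG
                      _ = lam := pow_one _
                  · rw [← Real.rpow_natCast, ← Real.rpow_mul hZ0.le]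
                    calc (Z : ℝ) ^ (θ * G.natDegree) ≤ (Z : ℝ) ^ (1 : ℝ) :=
                          Real.rpow_le_rpow_of_exponent_le hZ1 hθ1
                      _ = Z := Real.rpow_one _
          calc (CG : ℝ) * (p : ℝ) ^ G.natDegree ≤ CG * (lam * Z) :=
                mul_le_mul_of_nonneg_left h2 (Nat.cast_nonneg _)
            _ = (CG * lam) * Z := by ring
            _ ≤ 1 / 4 * Z := mul_le_mul_of_nonneg_right hlamC hZ0.le
            _ = Z / 4 := by ring
        have hGN : ((G.eval (p : ℤ) : ℤ) : ℝ) < N := by linarith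
        have hGNi : G.eval (p : ℤ) < (N : ℤ) := by exact_mod_cast hGN
        have hG0 : 0 ≤ G.eval (p : ℤ) := by
          apply hP0
          have h1 : (P0 : ℝ) ≤ p := by
            have h2 : 2 * P0 / lam ≤ (Z : ℝ) ^ θ := by
              calc 2 * P0 / lam ≤ (Y : ℝ) ^ (min s θ) := (le_max_left _ _).trans f1
                _ ≤ (Y : ℝ) ^ θ :=
                    Real.rpow_le_rpow_of_exponent_le (by linarith) (min_le_right _ _)
                _ ≤ (Z : ℝ) ^ θ := Real.rpow_le_rpow hY0.le hYZ hθ0.le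
            rw [div_le_iff₀ hlam0] at h2
            have h3 : x = (Z : ℝ) ^ θ * lam := by rw [hx]; ring
            linarith
          exact_mod_cast h1
        have habs : |G.eval (p : ℤ) + -(N : ℤ)| = (N : ℤ) - G.eval (p : ℤ) := by
          rw [abs_of_neg (by linarith)]
          ring
        rw [habs] at hpg
        have hneg : ∀ q : ℕ, ((q : ℤ) ∣ G.eval (p : ℤ) + -(N : ℤ)) ↔
            ((q : ℤ) ∣ (N : ℤ) - G.eval (p : ℤ)) := by
          intro q
          rw [← dvd_neg]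
          have : -(G.eval (p : ℤ) + -(N : ℤ)) = (N : ℤ) - G.eval (p : ℤ) := by ring
          rw [this]
        have hrough : ∀ q : ℕ, q.Prime → (q : ℤ) ∣ (N : ℤ) - G.eval (p : ℤ) →
            (Z : ℝ) ^ u ≤ q := fun q hq hd => hpq q hq ((hneg q).2 hd)
        have hZu1 : 1 ≤ (Z : ℝ) ^ u := Real.one_le_rpow hZ1 (by linarith)
        unfold goodu
        rw [mem_filter, mem_Icc]
        refine ⟨⟨hp1, ?_⟩, hpp, by linarith, ?_⟩
        · exact Nat.le_floor (hpx2.le.trans hxN)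
        · intro q hq hd
          refine le_trans ?_ (hrough q hq hd)
          exact Real.rpow_le_rpow hN0.le hNr2 hu00.le
      -- sizes
      have hNθ3 : (3 : ℝ) ≤ (N : ℝ) ^ θ :=
        f2.trans (Real.rpow_le_rpow hY0.le hNr1.le hθ0.le)
      have hfl3 : 3 ≤ ⌊(N : ℝ) ^ θ⌋₊ := Nat.le_floor (by exact_mod_cast hNθ3)
      have hmert := hML _ hfl3
      have hlfl : Real.log (⌊(N : ℝ) ^ θ⌋₊ : ℝ) ≤ Real.log Z := by
        apply Real.log_le_log
        · have : 0 < ⌊(N : ℝ) ^ θ⌋₊ := by omega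
          exact_mod_cast this
        · refine (Nat.floor_le (by positivity)).trans ?_
          calc (N : ℝ) ^ θ ≤ (Z : ℝ) ^ θ := Real.rpow_le_rpow hN0.le hNr2 hθ0.le
            _ ≤ Z := hZθZ
      have hlfl0 : 0 < Real.log (⌊(N : ℝ) ^ θ⌋₊ : ℝ) := by
        apply Real.log_pos
        have : (3 : ℝ) ≤ (⌊(N : ℝ) ^ θ⌋₊ : ℝ) := by exact_mod_cast hfl3
        linarith
      have hlN0 : 0 < Real.log N := Real.log_pos (by linarith)
      have hlZN : Real.log Z ≤ 2 * Real.log N := by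
        have h1 : (Z : ℝ) ≤ (N : ℝ) ^ 2 := by nlinarith
        have h2 := Real.log_le_log hZ0 h1
        rw [Real.log_pow] at h2
        push_cast at h2
        exact h2
      have hs := sing_nonneg G N ((N : ℝ) ^ θ)
      have hloc : sing G N ((N : ℝ) ^ θ) * (c / Real.log Z) ≤ locP G (-(N : ℤ)) x := by
        refine le_trans ?_ (locP_anti G (-(N : ℤ)) x ((N : ℝ) ^ θ) hxN)
        rw [locP_sing]
        apply mul_le_mul_of_nonneg_left _ hs
        refine le_trans ?_ hmert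
        exact div_le_div_of_nonneg_left hc.le hlfl0 hlfl
      have hcard : ((gp G (-(N : ℤ)) x ((Z : ℝ) ^ u)).card : ℝ) ≤
          (goodu G u N ((N : ℝ) ^ θ)).card := by exact_mod_cast card_le_card hsub
      refine (hcard.trans_lt hlt).trans_le ?_
      calc δ * sing G N ((N : ℝ) ^ θ) * ((N : ℝ) ^ θ / Real.log N ^ 2) ≤
          δ * sing G N ((N : ℝ) ^ θ) * ((Z : ℝ) ^ θ / (Real.log Z / 2) ^ 2) := by
            apply mul_le_mul_of_nonneg_left _ (by positivity)
            apply div_le_div₀ (by positivity) (Real.rpow_le_rpow hN0.le hNr2 hθ0.le)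
              (by positivity)
            apply pow_le_pow_left₀ (by positivity)
            linarith
        _ = δ' * x / Real.log Z * (sing G N ((N : ℝ) ^ θ) * (c / Real.log Z)) := by
            rw [hδdef, hx]
            field_simp
            ring
        _ ≤ δ' * x / Real.log Z * locP G (-(N : ℤ)) x := by
            apply mul_le_mul_of_nonneg_left hloc
            positivity
    have hcardle : ((Ioc Y (2 * Y)).filter (fun N : ℕ =>
        ((goodu G u N ((N : ℝ) ^ θ)).card : ℝ) <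
        δ * sing G N ((N : ℝ) ^ θ) * ((N : ℝ) ^ θ / Real.log N ^ 2))).card ≤
        ((Icc (-(Z : ℤ)) Z).filter (fun k =>
          ((gp G k x ((Z : ℝ) ^ u)).card : ℝ) < δ' * x / Real.log Z * locP G k x)).card := by
      apply card_le_card_of_injOn (fun N : ℕ => -(N : ℤ))
      · intro N hN
        rw [mem_coe, mem_filter] at hN
        rw [mem_coe, mem_filter]
        refine ⟨?_, hpt N hN.1 hN.2⟩
        have := hN.1
        rw [mem_Ioc] at this
        show -(N : ℤ) ∈ Icc (-(Z : ℤ)) Z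
        rw [mem_Icc]
        constructor <;> omega
      · intro a _ b _ hab
        simp only at hab
        have : (a : ℤ) = b := by linarith
        exact_mod_cast this
    calc (((Ioc Y (2 * Y)).filter (fun N : ℕ =>
        ((goodu G u N ((N : ℝ) ^ θ)).card : ℝ) <
        δ * sing G N ((N : ℝ) ^ θ) * ((N : ℝ) ^ θ / Real.log N ^ 2))).card : ℝ) ≤ _ := by
          exact_mod_cast hcardle
      _ ≤ (Z : ℝ) ^ (max (max (2 / 3) (1 - θ')) (4 * u - θ') + ε / 4) := hH
      _ ≤ (Z : ℝ) ^ (E + ε / 2) := Real.rpow_le_rpow_of_exponent_le hZ1 hE'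
      _ = (2 : ℝ) ^ (E + ε / 2) * (Y : ℝ) ^ (E + ε / 2) := by
          rw [hZr, Real.mul_rpow (by norm_num) hY0.le]
      _ ≤ (Y : ℝ) ^ (ε / 2) * (Y : ℝ) ^ (E + ε / 2) :=
          mul_le_mul_of_nonneg_right f3 (by positivity)
      _ = (Y : ℝ) ^ (E + ε) := by
          rw [← Real.rpow_add hY0]
          congr 1
          ring)
  exact ⟨δ, C, hδ, hC, hcum⟩

end Pool.Agent.Q251.GQ
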